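import Pool.Agent.Lib_helper62.AP.Defs
import Pool.Agent.Lib_helper16.KP.FrobAll

/-!
# The sums of all levels at one Frobenius element, with the reduction maps made explicit
-/

set_option autoImplicit false

namespace Pool.Agent.AP

open NumberField Polynomial
open Pool.Agent.TT Pool.Agent.TB Pool.Agent.TF Pool.Agent.RF Pool.Agent.TU Pool.Agent.KT
open Pool.Agent.KP

/-- **The sums of all levels at one Frobenius element over all finite extensions of the residue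
field `ZMod q`**: `φ₀` is the reduction of `𝓞 K`, `η₀` is the reduction of `w N`. -/
theorem fgx_gen {K : Type} [Field K] [NumberField K] [Algebra K Qbar] {p : ℕ}
    (hp : p.Prime) {N q : ℕ} [hqF : Fact q.Prime] (hqN : p ^ N < q) {Q : Ideal (𝓞 Qbar)}
    (hQ : Q.IsPrime) (hqQ : (q : 𝓞 Qbar) ∈ Q) {σ : Qbar ≃ₐ[K] Qbar}
    (hσ : ∀ x y : 𝓞 Qbar, (y : Qbar) = σ x → y - x ^ q ∈ Q)
    (hfix : ∀ z : Qbar, z ^ p ^ N = 1 → σ z = z) :
    ∃ (w : ℕ → Qbar) (φ₀ : 𝓞 K →+* ZMod q) (η₀ : ZMod q),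
      (∀ n ≤ N, IsPrimitiveRoot (w n) (p ^ n)) ∧ (∀ n ≤ N, w n = w N ^ p ^ (N - n)) ∧
      p ^ N ∣ q - 1 ∧ IsPrimitiveRoot η₀ (p ^ N) ∧
      (∀ x : 𝓞 K, φ₀ x = 0 ↔ algebraMap (𝓞 K) (𝓞 Qbar) x ∈ Q) ∧
      ∀ n ≤ N, ∃ (σn : Qbar ≃ₐ[level K p n] Qbar) (φn : 𝓞 (level K p n) →+* ZMod q),
        (∀ x, σn x = σ x) ∧
        (∀ x : 𝓞 (level K p n), φn x = 0 ↔ algebraMap (𝓞 (level K p n)) (𝓞 Qbar) x ∈ Q) ∧
        ∀ ω : 𝓞 (level K p n), IsPrimitiveRoot ω (p ^ n) →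
          ∀ (F : Type) [Field F] [Fintype F] [Algebra (ZMod q) F] (l : ℕ),
            Fintype.card F = q ^ l → ∀ (a : F → ℕ),
            (∀ y : F, y ≠ 0 → y ^ ((Fintype.card F - 1) / p ^ N) =
              (algebraMap (ZMod q) F η₀) ^ a y) →
            ∀ (m : ℕ) (ζ : 𝓞 K) {s : ℕ} (S : Fin s → TowerStratum K),
              (theta (emb K) m ζ ((algebraMap (ZMod q) F).comp φ₀) a S).eval (w n) =
                emb (level K p n) (towerSum m ζ (p ^ n) ω ((algebraMap (ZMod q) F).comp φn) S) := by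
  classical
  have hq : q.Prime := hqF.out
  have hchar : CharP (𝓞 Qbar ⧸ Q) q := Pool.Agent.DS.frx_charP hq Q hqQ
  let j₀ : ZMod q →+* (𝓞 Qbar ⧸ Q) := ZMod.castHom (dvd_refl q) (𝓞 Qbar ⧸ Q)
  have hj₀ : Function.Injective j₀ := ZMod.castHom_injective _
  have hpN : 0 < p ^ N := pow_pos hp.pos N
  obtain ⟨z, hz⟩ := exists_prim hpN
  let w : ℕ → Qbar := fun n => z ^ p ^ (N - n)
  have hw : ∀ n ≤ N, IsPrimitiveRoot (w n) (p ^ n) := by
    intro n hn
    apply hz.pow hpN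
    rw [← pow_add]
    congr 1
    omega
  have hcoe : ∀ {L : Type} [Field L] [Algebra L Qbar] (x : 𝓞 L),
      ((algebraMap (𝓞 L) (𝓞 Qbar) x : 𝓞 Qbar) : Qbar) = emb L x := fun x => rfl
  have hinj : ∀ {x y : 𝓞 Qbar}, (x : Qbar) = y → x = y := fun h => RingOfIntegers.coe_injective h
  -- the levels
  have hlev : ∀ n, n ≤ N → ∃ (σn : Qbar ≃ₐ[level K p n] Qbar) (φn : 𝓞 (level K p n) →+* ZMod q)
      (wn : 𝓞 (level K p n)), (∀ x, σn x = σ x) ∧ emb (level K p n) wn = w n ∧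
      (∀ x : 𝓞 (level K p n), φn x = 0 ↔ algebraMap (𝓞 (level K p n)) (𝓞 Qbar) x ∈ Q) ∧
      (∀ x : 𝓞 (level K p n),
        j₀ (φn x) = Ideal.Quotient.mk Q (algebraMap (𝓞 (level K p n)) (𝓞 Qbar) x)) ∧
      (∀ ω : 𝓞 (level K p n), IsPrimitiveRoot ω (p ^ n) → IsPrimitiveRoot (φn ω) (p ^ n)) ∧
      p ^ n ∣ q - 1 := by
    intro n hn
    have hnf : NumberField (level K p n) := level_nf hp n
    obtain ⟨σn, hσn⟩ := level_fix (K := K) hn hfix
    obtain ⟨φn, hφn1, hφn2⟩ := ft_phi (K := level K p n) hq hQ hqQ (σ := σn) (by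
      intro x y hxy
      rw [hσn] at hxy
      exact hσ x y hxy)
    obtain ⟨wn, hwn⟩ := level_root (K := K) hp (w := w n) (n := n) (hw n hn).pow_eq_one
    have hpn : p ^ n < q := lt_of_le_of_lt (Nat.pow_le_pow_right hp.pos hn) hqN
    have hred : ∀ ω : 𝓞 (level K p n), IsPrimitiveRoot ω (p ^ n) →
        IsPrimitiveRoot (φn ω) (p ^ n) ∧ p ^ n ∣ q - 1 := fun ω hω =>
      rs_reduce hq (pow_pos hp.pos n) hpn hω hQ hqQ φn hφn1
    have hwn' : IsPrimitiveRoot wn (p ^ n) := by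
      have h1 : Function.Injective (emb (level K p n)) := by
        intro x y hxy
        apply RingOfIntegers.coe_injective
        exact (algebraMap (level K p n) Qbar).injective hxy
      apply IsPrimitiveRoot.of_map_of_injective (f := emb (level K p n)) _ h1
      rw [hwn]
      exact hw n hn
    exact ⟨σn, φn, wn, hσn, hwn, hφn1, fun x => hφn2 j₀ x, fun ω hω => (hred ω hω).1,
      (hred wn hwn').2⟩
  obtain ⟨σN, φN, wN, hσN, hwN, hφN1, hφN2, hφN3, hqN1⟩ := hlev N le_rfl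
  obtain ⟨φK, hφK1, hφK2⟩ := ft_phi (K := K) hq hQ hqQ hσ
  have hwNp : IsPrimitiveRoot wN (p ^ N) := by
    have h1 : Function.Injective (emb (level K p N)) := by
      intro x y hxy
      apply RingOfIntegers.coe_injective
      exact (algebraMap (level K p N) Qbar).injective hxy
    apply IsPrimitiveRoot.of_map_of_injective (f := emb (level K p N)) _ h1
    rw [hwN]
    exact hw N le_rfl
  refine ⟨w, φK, φN wN, hw, ?_, hqN1, hφN3 wN hwNp, hφK1, ?_⟩
  · intro n _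
    change z ^ p ^ (N - n) = (z ^ p ^ (N - N)) ^ p ^ (N - n)
    rw [Nat.sub_self, pow_zero, pow_one]
  intro n hn
  obtain ⟨σn, φn, wn, hσn, hwn, hφn1, hφn2, hφn3, hqn1⟩ := hlev n hn
  refine ⟨σn, φn, hσn, hφn1, ?_⟩
  intro ω hω F _ _ _ l hl a ha m ζ s S
  have hdvd : p ^ N ∣ Fintype.card F - 1 := by
    rw [hl]
    have h1 := Nat.sub_dvd_pow_sub_pow q 1 l
    rw [one_pow] at h1
    exact hqN1.trans h1
  let ψ : 𝓞 (level K p n) →+* F := (algebraMap (ZMod q) F).comp φn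
  have hψK : ψ.comp (algebraMap (𝓞 K) (𝓞 (level K p n))) = (algebraMap (ZMod q) F).comp φK := by
    apply RingHom.ext
    intro x
    change algebraMap (ZMod q) F (φn (algebraMap (𝓞 K) (𝓞 (level K p n)) x)) =
      algebraMap (ZMod q) F (φK x)
    congr 1
    apply hj₀
    rw [hφn2, hφK2 j₀]
    congr 1
  have hwη : φn wn = (φN wN) ^ p ^ (N - n) := by
    apply hj₀
    rw [map_pow, hφn2, hφN2, ← map_pow]
    congr 1
    apply hinj
    have h6 : ((algebraMap (𝓞 (level K p N)) (𝓞 Qbar) wN ^ p ^ (N - n) : 𝓞 Qbar) : Qbar) =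
        ((algebraMap (𝓞 (level K p N)) (𝓞 Qbar) wN : 𝓞 Qbar) : Qbar) ^ p ^ (N - n) := rfl
    rw [h6, hcoe, hwn, hcoe, hwN]
    change z ^ p ^ (N - n) = (z ^ p ^ (N - N)) ^ p ^ (N - n)
    rw [Nat.sub_self, pow_zero, pow_one]
  have hdn : p ^ n ∣ Fintype.card F - 1 := (pow_dvd_pow p hn).trans hdvd
  have h1 := theta_eval (K := K) (L := level K p n) (m := m) (ζ := ζ) S a (n := p ^ n)
    (ω := ω) (φ := ψ) (pow_pos hp.pos n) hω
    ((hφn3 ω hω).map_of_injective (algebraMap (ZMod q) F).injective)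
    hdn (emb (level K p n)) wn (by
      apply RingOfIntegers.coe_injective
      apply (algebraMap (level K p n) Qbar).injective
      rw [map_pow, map_pow, map_one, map_one]
      have h3 : algebraMap (level K p n) Qbar (algebraMap _ _ wn) = w n := hwn
      rw [h3]
      exact (hw n hn).pow_eq_one) (by
      intro y hy
      change _ = (algebraMap (ZMod q) F (φn wn)) ^ a y
      rw [hwη, map_pow, ← pow_mul, mul_comm, pow_mul]
      have h4 : (Fintype.card F - 1) / p ^ n =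
          (Fintype.card F - 1) / p ^ N * p ^ (N - n) := by
        apply Nat.div_eq_of_eq_mul_left (pow_pos hp.pos n)
        rw [mul_assoc, ← pow_add, Nat.sub_add_cancel hn, Nat.div_mul_cancel hdvd]
      rw [h4, pow_mul, ha y hy])
  rw [hψK, hwn] at h1
  rw [← h1]
  congr 1

/-- BLOCK FG. `KP.frob_all` with the explicit data. -/
theorem block_FG {K : Type} [Field K] [NumberField K] [Algebra K Qbar] {p m : ℕ}
    (hp : p.Prime) (hm : 0 < m) {ζ : 𝓞 K} (hζ : IsPrimitiveRoot ζ m) {N q : ℕ} [hqF : Fact q.Prime]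
    [∀ l, Fintype (GaloisField q l)] (hqm : m < q)
    (hqN : p ^ N < q) {Q : Ideal (𝓞 Qbar)}
    (hQ : Q.IsPrime) (hqQ : (q : 𝓞 Qbar) ∈ Q) {σ : Qbar ≃ₐ[K] Qbar}
    (hσ : ∀ x y : 𝓞 Qbar, (y : Qbar) = σ x → y - x ^ q ∈ Q)
    (hfix : ∀ z : Qbar, z ^ p ^ N = 1 → σ z = z) :
    ∃ (w : ℕ → Qbar) (φ₀ : 𝓞 K →+* ZMod q) (η₀ : ZMod q) (a : ∀ l, GaloisField q l → ℕ),
      (∀ n ≤ N, IsPrimitiveRoot (w n) (p ^ n)) ∧ (∀ n ≤ N, w n = w N ^ p ^ (N - n)) ∧
      p ^ N ∣ q - 1 ∧ IsPrimitiveRoot (φ₀ ζ) m ∧ IsPrimitiveRoot η₀ (p ^ N) ∧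
      (∀ l, 1 ≤ l → ∀ y : GaloisField q l, y ≠ 0 →
        y ^ ((Fintype.card (GaloisField q l) - 1) / p ^ N) =
          (algebraMap (ZMod q) (GaloisField q l) η₀) ^ a l y) ∧
      ∀ {s : ℕ} (S : Fin s → TowerStratum K), ∀ n ≤ N, ∃ σn : Qbar ≃ₐ[level K p n] Qbar,
        (∀ x, σn x = σ x) ∧
          ∀ ω : 𝓞 (level K p n), IsPrimitiveRoot ω (p ^ n) → ∀ l, 1 ≤ l →
            ∃ (F : Type) (_ : Field F) (_ : Fintype F) (ψ : 𝓞 (level K p n) →+* F),
              Fintype.card F = q ^ l ∧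
              (∀ x : 𝓞 (level K p n), ψ x = 0 ↔
                algebraMap (𝓞 (level K p n)) (𝓞 Qbar) x ∈ Q) ∧
              (theta (emb K) m ζ ((algebraMap (ZMod q) (GaloisField q l)).comp φ₀) (a l) S).eval
                (w n) = emb (level K p n) (towerSum m ζ (p ^ n) ω ψ S) := by
  classical
  obtain ⟨w, φ₀, η₀, hw, hwN, hqN1, hη₀, hφ₀, hlev⟩ := fgx_gen hp hqN hQ hqQ hσ hfix
  have hpN : 0 < p ^ N := pow_pos hp.pos N
  have hcardF : ∀ r, 1 ≤ r → Fintype.card (GaloisField q r) = q ^ r := by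
    intro r hr
    rw [← Nat.card_eq_fintype_card]
    exact GaloisField.card q r (by omega)
  have hη : ∀ r, IsPrimitiveRoot (algebraMap (ZMod q) (GaloisField q r) η₀) (p ^ N) := fun r =>
    hη₀.map_of_injective (algebraMap (ZMod q) (GaloisField q r)).injective
  have hdvd : ∀ r, 1 ≤ r → p ^ N ∣ Fintype.card (GaloisField q r) - 1 := by
    intro r hr
    rw [hcardF r hr]
    have h1 := Nat.sub_dvd_pow_sub_pow q 1 r
    rw [one_pow] at h1
    exact hqN1.trans h1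
  have ha : ∀ r (y : GaloisField q r), ∃ a : ℕ, 1 ≤ r → y ≠ 0 →
      y ^ ((Fintype.card (GaloisField q r) - 1) / p ^ N) =
        (algebraMap (ZMod q) (GaloisField q r) η₀) ^ a := by
    intro r y
    by_cases h : 1 ≤ r ∧ y ≠ 0
    · have : NeZero (p ^ N) := ⟨hpN.ne'⟩
      obtain ⟨a, -, ha⟩ := (hη r).eq_pow_of_pow_eq_one
        (ξ := y ^ ((Fintype.card (GaloisField q r) - 1) / p ^ N)) (by
          rw [← pow_mul, Nat.div_mul_cancel (hdvd r h.1)]
          exact FiniteField.pow_card_sub_one_eq_one y h.2)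
      exact ⟨a, fun _ _ => ha.symm⟩
    · exact ⟨0, fun h1 h2 => absurd ⟨h1, h2⟩ h⟩
  choose a ha using ha
  refine ⟨w, φ₀, η₀, a, hw, hwN, hqN1, (rs_reduce hqF.out hm hqm hζ hQ hqQ φ₀ hφ₀).1, hη₀,
    fun l hl y hy => ha l y hl hy, ?_⟩
  intro s S n hn
  obtain ⟨σn, φn, hσn, hφn, hsum⟩ := hlev n hn
  refine ⟨σn, hσn, ?_⟩
  intro ω hω l hl
  refine ⟨GaloisField q l, inferInstance, inferInstance,
    (algebraMap (ZMod q) (GaloisField q l)).comp φn, hcardF l hl, ?_, ?_⟩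
  · intro x
    rw [← hφn]
    exact map_eq_zero_iff _ (algebraMap (ZMod q) (GaloisField q l)).injective
  · exact hsum ω hω (GaloisField q l) l (hcardF l hl) (a l) (fun y hy => ha l y hl hy) m ζ S

end Pool.Agent.AP
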